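import Pool.Agent.Lib.MP_2c27be_co.Quant

/-!
The Euclidean distortion of a `D`-tree-stochastic `n`-point metric space is at most a constant
times `D ^ 3 * sqrt (log n / log log n)` for large `n`.
-/

namespace Pool.Agent.Results.MP_2c27be_co.TreeStochasticBound

open scoped ENNReal

/-- The Lipschitz norm. -/
noncomputable def lip {X Y : Type} [MetricSpace X] [MetricSpace Y] (f : X → Y) : ℝ≥0∞ :=
  ⨆ (x : X) (y : X) (_ : x ≠ y), edist (f x) (f y) / edist x y

/-- The distortion of an injective map. -/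
noncomputable def distortion {X Y : Type} [MetricSpace X] [MetricSpace Y] (f : X → Y)
    (hf : Function.Injective f) : ℝ≥0∞ :=
  lip f * lip (Equiv.ofInjective f hf).symm

/-- The Euclidean distortion. -/
noncomputable def c2 (X : Type) [MetricSpace X] : ℝ≥0∞ :=
  ⨅ (f : X → lp (fun _ : ℕ => ℝ) 2) (hf : Function.Injective f), distortion f hf

/-- Shortest-path distances on a set of vertices of a finite tree with positive edge weights. -/
def IsTreeMetric {X : Type} (t : X → X → ℝ) : Prop :=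
  ∃ (V : Type) (_ : Finite V) (T : SimpleGraph V) (w : Sym2 V → ℝ) (ι : X → V),
    T.IsTree ∧ (∀ e ∈ T.edgeSet, 0 < w e) ∧ Function.Injective ι ∧
      ∀ x y, t x y = ⨅ p : T.Path (ι x) (ι y), (p.1.edges.map w).sum

/-- `D`-tree-stochastic metric spaces. -/
def TreeStochastic (D : ℝ) (X : Type) [MetricSpace X] : Prop :=
  ∃ (k : ℕ) (t : Fin k → X → X → ℝ) (lam : Fin k → ℝ),
    (∀ i, IsTreeMetric (t i)) ∧ (∀ i x y, dist x y ≤ t i x y) ∧ (∀ i, 0 ≤ lam i) ∧
      ∑ i, lam i = 1 ∧ ∀ x y, ∑ i, lam i * t i x y ≤ D * dist x y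

lemma lip_le {X Y : Type} [MetricSpace X] [MetricSpace Y] {f : X → Y} {K : ℝ} (hK : 0 ≤ K)
    (h : ∀ x y, dist (f x) (f y) ≤ K * dist x y) : lip f ≤ ENNReal.ofReal K := by
  refine iSup_le fun x => iSup_le fun y => iSup_le fun _ => ENNReal.div_le_of_le_mul ?_
  rw [edist_dist, edist_dist, ← ENNReal.ofReal_mul hK]
  exact ENNReal.ofReal_le_ofReal (h x y)

open Pool.Agent.Lib.MP_2c27be_co in
theorem result : ∃ C : ℝ, ∀ D : ℝ, 1 ≤ D → ∃ N : ℕ,
    ∀ (X : Type) [MetricSpace X] [Fintype X], N ≤ Fintype.card X → TreeStochastic D X →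
      c2 X ≤ ENNReal.ofReal (C * D ^ 3 *
        √(Real.log (Fintype.card X) / Real.log (Real.log (Fintype.card X)))) := by
  refine ⟨10 ^ 21, fun D hD => ?_⟩
  obtain ⟨N, hN⟩ := quant D hD
  refine ⟨N, fun X _ _ hn ⟨k, t, lam, h1, h2, h3, h4, h5⟩ => ?_⟩
  obtain ⟨f, s, hs, hf⟩ := hN X hn k lam t h3 h4 (fun i => by
    obtain ⟨V, _, T, w, ι, a1, a2, -, a3⟩ := h1 i
    have h := isTree_graph a1 a2
    exact ⟨fun x y => by rw [a3, a3]; exact h.symm _ _, fun x => by rw [a3]; exact h.zero _,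
      fun x y z u => by simp only [a3]; exact h.four _ _ _ _⟩) h2 h5
  have hi : Function.Injective f := fun x y h => by
    have h6 := (hf x y).1
    rw [h, dist_self] at h6
    exact dist_le_zero.1 (nonpos_of_mul_nonpos_right h6 hs)
  refine (iInf₂_le f hi).trans ((mul_le_mul' (lip_le (by positivity) fun x y => (hf x y).2)
    (lip_le (K := s⁻¹) (by positivity) fun x y => ?_)).trans ?_)
  · obtain ⟨x, rfl⟩ := (Equiv.ofInjective f hi).surjective x
    obtain ⟨y, rfl⟩ := (Equiv.ofInjective f hi).surjective y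
    rw [Equiv.symm_apply_apply, Equiv.symm_apply_apply, le_inv_mul_iff₀ hs]
    exact (hf x y).1
  · rw [← ENNReal.ofReal_mul (by positivity), mul_comm s, mul_inv_cancel_right₀ hs.ne']

end Pool.Agent.Results.MP_2c27be_co.TreeStochasticBound
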